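import Pool.Agent.Helper57.KE.St

/-!
# Project KE, module PT: the pointwise inequality for the test function
-/

set_option autoImplicit false

namespace Pool.Agent.Helper5.KE

open Pool.Agent.Helper57.KE

private theorem key_pow (x p : ℝ) (hx1 : x < 1) (hp1 : p ≤ 1) :
    1 - p * x - (1 - p) * x ^ 2 ≤ (1 - x) ^ p := by
  have hpos : 0 < 1 - x := by linarith
  have h1 : (1 - x) ^ p = (1 - x) ^ (p - 1) * (1 - x) := by
    rw [Real.rpow_sub_one hpos.ne']
    field_simp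
  have h2 : 1 + (1 - p) * x ≤ (1 - x) ^ (p - 1) := by
    rw [Real.rpow_def_of_pos hpos]
    have h3 := Real.add_one_le_exp (Real.log (1 - x) * (p - 1))
    have h4 := Real.log_le_sub_one_of_pos hpos
    have h5 : (-x) * (p - 1) ≤ Real.log (1 - x) * (p - 1) :=
      mul_le_mul_of_nonpos_right (by linarith) (by linarith)
    linarith
  rw [h1]
  have h3 := mul_le_mul_of_nonneg_right h2 hpos.le
  have h4 : (1 + (1 - p) * x) * (1 - x) = 1 - p * x - (1 - p) * x ^ 2 := by ring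
  rw [h4] at h3
  exact h3

/-- The bounds for the shifted test function. -/
private theorem sh_bounds (p σ : ℝ) (i : ℕ) (hp0 : 0 ≤ p) (hp1 : p ≤ 1) (hσ : 0 ≤ σ) :
    gg p σ i * ((1 - p * (1 / ((i : ℝ) + 1)) - (1 - p) * (1 / ((i : ℝ) + 1)) ^ 2) * (1 + σ)) ≤
      sh (gg p σ) i ∧ sh (gg p σ) i ≤ gg p σ i * Real.exp σ := by
  rcases Nat.eq_zero_or_pos i with rfl | hi
  · have h1 : sh (gg p σ) 0 = 0 := by
      unfold sh
      rw [if_pos rfl]
    rw [h1]
    constructor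
    · apply le_of_eq
      norm_num
    · unfold gg
      positivity
  · obtain ⟨j, rfl⟩ : ∃ j, i = j + 1 := ⟨i - 1, by omega⟩
    have hk : (0 : ℝ) < ((j + 1 : ℕ) : ℝ) + 1 := by positivity
    obtain ⟨x, hx⟩ : ∃ x : ℝ, x = 1 / (((j + 1 : ℕ) : ℝ) + 1) := ⟨_, rfl⟩
    have hx1 : x < 1 := by
      rw [hx, div_lt_one hk]
      push_cast
      have : (0 : ℝ) ≤ j := Nat.cast_nonneg j
      linarith
    have hx0 : 0 < x := by rw [hx]; positivity
    have hj : ((j : ℝ) + 1) = (((j + 1 : ℕ) : ℝ) + 1) * (1 - x) := by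
      rw [hx]
      field_simp
      push_cast
      ring
    have h1 : sh (gg p σ) (j + 1) = gg p σ (j + 1) * ((1 - x) ^ p * Real.exp σ) := by
      unfold sh
      rw [if_neg (by omega), Nat.add_sub_cancel]
      unfold gg
      have e1 : Real.exp (-(σ * ((j : ℝ) + 1))) =
          Real.exp (-(σ * (((j + 1 : ℕ) : ℝ) + 1))) * Real.exp σ := by
        rw [← Real.exp_add]
        congr 1
        push_cast
        ring
      have e2 : ((j : ℝ) + 1) ^ p = (((j + 1 : ℕ) : ℝ) + 1) ^ p * (1 - x) ^ p := by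
        rw [hj, Real.mul_rpow hk.le (by linarith)]
      rw [e1, e2]
      ring
    have hg : 0 < gg p σ (j + 1) := by
      unfold gg
      positivity
    rw [← hx, h1]
    constructor
    · apply mul_le_mul_of_nonneg_left _ hg.le
      have a1 := key_pow x p hx1 hp1
      have a2 := Real.add_one_le_exp σ
      have a3 : 0 ≤ (1 - x) ^ p := Real.rpow_nonneg (by linarith) p
      calc (1 - p * x - (1 - p) * x ^ 2) * (1 + σ) ≤ (1 - x) ^ p * (1 + σ) :=
            mul_le_mul_of_nonneg_right a1 (by linarith)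
        _ ≤ (1 - x) ^ p * Real.exp σ := mul_le_mul_of_nonneg_left (by linarith) a3
    · apply mul_le_mul_of_nonneg_left _ hg.le
      have a1 : (1 - x) ^ p ≤ 1 := Real.rpow_le_one (by linarith) (by linarith) hp0
      calc (1 - x) ^ p * Real.exp σ ≤ 1 * Real.exp σ :=
            mul_le_mul_of_nonneg_right a1 (Real.exp_pos σ).le
        _ = Real.exp σ := one_mul _

/-- The polynomial part. -/
private theorem poly (s σ x y p : ℝ) (hs0 : 0 < s) (hs1 : s < 1) (hσ : 0 < σ) (hx0 : 0 < x)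
    (hx1 : x ≤ 1) (hp : p = (1 - s) / (1 + s)) (hxy : x * y = σ) (d : ℝ)
    (hd : d = p * x - σ + ((1 - p) * x ^ 2 + σ * (p * x + (1 - p) * x ^ 2))) :
    2 * s / (1 - s) * (σ ^ 2 + 2 * (σ / s) * d + d ^ 2) ≤
      x ^ 2 * (p * (1 - p) + 4 * p * y - 4 * y ^ 2 + 6 * s / (1 - s) * (1 + y) * (σ / s + x)) := by
  have h1s : 0 < 1 - s := by linarith
  have h1s' : 0 < 1 + s := by linarith
  have hp0 : 0 < p := by rw [hp]; positivity
  have hp1 : p < 1 := by rw [hp, div_lt_one h1s']; linarith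
  obtain ⟨e, he⟩ : ∃ e : ℝ, e = (1 - p) * x ^ 2 + σ * (p * x + (1 - p) * x ^ 2) := ⟨_, rfl⟩
  have hxx : x ^ 2 ≤ x := by nlinarith
  have hq : 0 < 1 - p := by linarith
  have he0 : 0 ≤ e := by
    rw [he]
    positivity
  have hσs : σ ≤ σ / s := by
    rw [le_div_iff₀ hs0]
    nlinarith
  have he1 : e ≤ x ^ 2 + σ * x := by
    have k1 : (1 - p) * σ * x ^ 2 ≤ (1 - p) * σ * x :=
      mul_le_mul_of_nonneg_left hxx (by positivity)
    have k2 : 0 ≤ p * x ^ 2 := by positivity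
    rw [he]
    nlinarith
  have he2 : e ≤ x + σ := by
    have k1 : σ * x ≤ σ := by nlinarith
    linarith
  have hbr : 2 * (σ / s) + 2 * (p * x - σ) + e ≤ 3 * (σ / s + x) := by
    have k1 : p * x ≤ x := by nlinarith
    linarith
  have hB : 0 ≤ 3 * (σ / s + x) := by positivity
  have hprod : e * (2 * (σ / s) + 2 * (p * x - σ) + e) ≤ (x ^ 2 + σ * x) * (3 * (σ / s + x)) :=
    (mul_le_mul_of_nonneg_left hbr he0).trans (mul_le_mul_of_nonneg_right he1 hB)
  have hc : 0 < 2 * s / (1 - s) := by positivity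
  have hmain : 2 * s / (1 - s) * (σ ^ 2 + 2 * (σ / s) * (p * x - σ) + (p * x - σ) ^ 2) =
      p * (1 - p) * x ^ 2 + 4 * p * σ * x - 4 * σ ^ 2 := by
    rw [hp]
    field_simp
    ring
  have hd' : d = p * x - σ + e := by rw [hd, he]
  have hL : 2 * s / (1 - s) * (σ ^ 2 + 2 * (σ / s) * d + d ^ 2) =
      (p * (1 - p) * x ^ 2 + 4 * p * σ * x - 4 * σ ^ 2) +
        2 * s / (1 - s) * (e * (2 * (σ / s) + 2 * (p * x - σ) + e)) := by
    rw [← hmain, hd']
    ring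
  have hR : x ^ 2 * (p * (1 - p) + 4 * p * y - 4 * y ^ 2 +
      6 * s / (1 - s) * (1 + y) * (σ / s + x)) =
      (p * (1 - p) * x ^ 2 + 4 * p * σ * x - 4 * σ ^ 2) +
        2 * s / (1 - s) * ((x ^ 2 + σ * x) * (3 * (σ / s + x))) := by
    rw [← hxy]
    ring
  rw [hL, hR]
  have := mul_le_mul_of_nonneg_left hprod hc.le
  linarith

/-- **PT.** -/
theorem hPT : StPT := by
  intro s σ i hs0 hs1 hσ hσs hσ2
  obtain ⟨p, hp⟩ : ∃ p : ℝ, p = (1 - s) / (1 + s) := ⟨_, rfl⟩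
  have h1s : 0 < 1 - s := by linarith
  have h1s' : 0 < 1 + s := by linarith
  have hp0 : 0 < p := by rw [hp]; positivity
  have hp1 : p < 1 := by rw [hp, div_lt_one h1s']; linarith
  rw [← hp]
  have hk : (0 : ℝ) < (i : ℝ) + 1 := by positivity
  obtain ⟨b1, b2⟩ := sh_bounds p σ i hp0.le hp1.le hσ.le
  obtain ⟨x, hx⟩ : ∃ x : ℝ, x = 1 / ((i : ℝ) + 1) := ⟨_, rfl⟩
  have hx0 : 0 < x := by rw [hx]; positivity
  have hx1 : x ≤ 1 := by
    rw [hx, div_le_one hk]
    have : (0 : ℝ) ≤ i := Nat.cast_nonneg i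
    linarith
  have hg : 0 < gg p σ i := by
    unfold gg
    positivity
  have hG2 : ((i : ℝ) + 1) ^ (2 * p - 2) * Real.exp (-(2 * (σ * ((i : ℝ) + 1)))) =
      gg p σ i ^ 2 * x ^ 2 := by
    unfold gg
    have e1 : ((i : ℝ) + 1) ^ (2 * p - 2) = (((i : ℝ) + 1) ^ p) ^ 2 * x ^ 2 := by
      rw [Real.rpow_sub hk, Real.rpow_two, mul_comm (2 : ℝ) p, Real.rpow_mul hk.le,
        Real.rpow_two, hx]
      field_simp
    have e2 : Real.exp (-(2 * (σ * ((i : ℝ) + 1)))) = Real.exp (-(σ * ((i : ℝ) + 1))) ^ 2 := by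
      rw [sq, ← Real.exp_add]
      congr 1
      ring
    rw [e1, e2]
    ring
  rw [hG2]
  rw [← hx] at b1 ⊢
  obtain ⟨G, hGdef⟩ : ∃ G : ℝ, G = gg p σ i := ⟨_, rfl⟩
  obtain ⟨S, hSdef⟩ : ∃ S : ℝ, S = sh (gg p σ) i := ⟨_, rfl⟩
  obtain ⟨y, hy⟩ : ∃ y : ℝ, y = σ * ((i : ℝ) + 1) := ⟨_, rfl⟩
  rw [← hGdef, ← hSdef] at b1 b2
  rw [← hGdef] at hg
  rw [← hGdef, ← hSdef, ← hy]
  obtain ⟨d, hd⟩ : ∃ d : ℝ,
    d = p * x - σ + ((1 - p) * x ^ 2 + σ * (p * x + (1 - p) * x ^ 2)) := ⟨_, rfl⟩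
  have hxy : x * y = σ := by
    rw [hx, hy]
    field_simp
  have hpoly := poly s σ x y p hs0 hs1 hσ hx0 hx1 hp hxy d hd
  -- upper bound for the difference
  have u1 : G - S ≤ G * d := by
    have e : G * d = G - G * ((1 - p * x - (1 - p) * x ^ 2) * (1 + σ)) := by
      rw [hd]
      ring
    linarith
  -- lower bound for the difference
  have u2 : -(G * (σ / s)) ≤ G - S := by
    have a1 := Real.abs_exp_sub_one_sub_id_le (x := σ) (by rw [abs_of_pos hσ]; linarith)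
    have a2 : Real.exp σ ≤ 1 + σ + σ ^ 2 := by
      have := (abs_le.1 a1).2
      linarith
    have a3 : σ + σ ^ 2 ≤ σ / s := by
      rw [le_div_iff₀ hs0]
      rw [le_div_iff₀ hs0] at hσ2
      nlinarith
    have a4 : G * Real.exp σ ≤ G * (1 + σ / s) := mul_le_mul_of_nonneg_left (by linarith) hg.le
    linarith
  have u3 : σ ^ 2 * G ^ 2 + 2 * (σ / s) * G * (G - S) + (G - S) ^ 2 ≤
      G ^ 2 * (σ ^ 2 + 2 * (σ / s) * d + d ^ 2) := by
    have k1 : 0 ≤ (G * d - (G - S)) * (2 * (G * (σ / s)) + G * d + (G - S)) := by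
      apply mul_nonneg
      · linarith
      · linarith
    have k2 : G ^ 2 * (σ ^ 2 + 2 * (σ / s) * d + d ^ 2) -
        (σ ^ 2 * G ^ 2 + 2 * (σ / s) * G * (G - S) + (G - S) ^ 2) =
        (G * d - (G - S)) * (2 * (G * (σ / s)) + G * d + (G - S)) := by ring
    linarith
  have hc : 0 < 2 * s / (1 - s) := by positivity
  calc 2 * s / (1 - s) * (σ ^ 2 * G ^ 2 + 2 * (σ / s) * G * (G - S) + (G - S) ^ 2)
      ≤ 2 * s / (1 - s) * (G ^ 2 * (σ ^ 2 + 2 * (σ / s) * d + d ^ 2)) :=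
        mul_le_mul_of_nonneg_left u3 hc.le
    _ = G ^ 2 * (2 * s / (1 - s) * (σ ^ 2 + 2 * (σ / s) * d + d ^ 2)) := by ring
    _ ≤ G ^ 2 * (x ^ 2 * (p * (1 - p) + 4 * p * y - 4 * y ^ 2 +
        6 * s / (1 - s) * (1 + y) * (σ / s + x))) :=
        mul_le_mul_of_nonneg_left hpoly (by positivity)
    _ = G ^ 2 * x ^ 2 * (p * (1 - p) + 4 * p * y - 4 * y ^ 2 +
        6 * s / (1 - s) * (1 + y) * (σ / s + x)) := by ring

end Pool.Agent.Helper5.KE
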